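import Pool.Agent.Q61.WM3

/-!
# The weak maximizing property does not pass to subspaces of the domain
-/

namespace Pool.Agent.Results.MP_33858f_an.WMPNotHereditary

open Pool.Agent.Q61.WM

/-- Over both fields of scalars there are Banach spaces `E`, `F` and a closed subspace `E₁` of `E`
such that `(E, F)` has the weak maximizing property, but `(E₁, F)` has not. -/
theorem result (𝕜 : Type) [RCLike 𝕜] :
    ∃ (E F : Type) (_ : NormedAddCommGroup E) (_ : NormedSpace 𝕜 E) (_ : CompleteSpace E)
      (_ : NormedAddCommGroup F) (_ : NormedSpace 𝕜 F) (_ : CompleteSpace F)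
      (E₁ : Submodule 𝕜 E), IsClosed (E₁ : Set E) ∧ WMP 𝕜 E F ∧ ¬ WMP 𝕜 E₁ F :=
  ⟨EE 𝕜, ell 𝕜 3, inferInstance, inferInstance, inferInstance, inferInstance, inferInstance,
    inferInstance, E1 𝕜, isClosed_E1, wmp_EE, not_wmp_E1⟩

end Pool.Agent.Results.MP_33858f_an.WMPNotHereditary
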